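import Pool.Agent.helper78.FS.Spec

namespace Pool.Agent.helper78.FS

open Finset Real
open Classical

noncomputable section

theorem GCO : GCO_stmt := by
  intro t r n _ hr i j
  have h0 : (gr t r n i j) 0 = cos t * (r * sin (j * π / n) * cos (((i.val : ℝ) + 1 / 2) * π / n)) + sin t * (r * cos (j * π / n)) := rfl
  have h1 : (gr t r n i j) 1 = r * sin (j * π / n) * sin (((i.val : ℝ) + 1 / 2) * π / n) := rfl
  have h2 : (gr t r n i j) 2 = - sin t * (r * sin (j * π / n) * cos (((i.val : ℝ) + 1 / 2) * π / n)) + cos t * (r * cos (j * π / n)) := rfl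
  have hn : (n : ℝ) ≠ 0 := Nat.cast_ne_zero.2 (NeZero.ne n)
  refine ⟨?_, h1, ?_, ?_, ?_, ?_⟩
  · unfold xc
    rw [h0, h2]
    linear_combination (r * sin (j * π / n) * cos (((i.val : ℝ) + 1 / 2) * π / n)) * (sin_sq_add_cos_sq t)
  · unfold zc
    rw [h0, h2]
    linear_combination (r * cos (j * π / n)) * (sin_sq_add_cos_sq t)
  · rw [EuclideanSpace.norm_eq]
    rw [Fin.sum_univ_three, h0, h1, h2]
    simp only [Real.norm_eq_abs, sq_abs]
    rw [← Real.sqrt_sq hr]
    congr 1
    set A := sin (j * π / n)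
    set Cc := cos (j * π / n)
    have e1 := sin_sq_add_cos_sq t
    have e2 := sin_sq_add_cos_sq (((i.val : ℝ) + 1 / 2) * π / n)
    have e3 : A ^ 2 + Cc ^ 2 = 1 := sin_sq_add_cos_sq (j * π / n)
    have e4 : √(r ^ 2) = r := Real.sqrt_sq hr
    rw [e4]
    linear_combination (r ^ 2 * A ^ 2 * cos (((i.val : ℝ) + 1 / 2) * π / n) ^ 2 + r ^ 2 * Cc ^ 2) * e1 + r ^ 2 * A ^ 2 * e2 + r ^ 2 * e3
  · unfold gr Nt
    simp only [Nat.cast_zero, zero_mul, zero_div, sin_zero, cos_zero, mul_zero, mul_one, zero_add]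
    congr 1
    ext k
    fin_cases k <;> simp <;> ring
  · unfold gr Nt
    have e5 : (n : ℝ) * π / n = π := by field_simp
    simp only [e5, sin_pi, cos_pi, mul_zero, zero_mul, zero_add]
    ext k
    fin_cases k <;> simp <;> ring

end

end Pool.Agent.helper78.FS
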