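import Pool.Agent.helper78.FS.Spec

namespace Pool.Agent.helper78.FS

open Finset Real
open Classical

noncomputable section

theorem NB1_rel (r : ℝ) (c : E3 → Fin 7) (Q : Finset E3) (R : ℝ) (hR : 1 ≤ R) (x y : E3) (hx : ‖x‖ = r)
    (h : rel r c Q R x y) : ‖y‖ = r ∧ dist x y ≤ 2 * R := by
  rcases h with rfl | ⟨-, hy, h⟩
  · exact ⟨hx, by rw [dist_self]; linarith⟩
  · refine ⟨hy, ?_⟩
    rcases h with ⟨q, -, h1, h2⟩ | ⟨-, -, -, h1⟩
    · have := dist_triangle_right x y q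
      linarith
    · linarith

theorem NB1 : NB1_stmt := by
  intro ε r c Q R φ hε hD hR
  obtain ⟨hε0, hG, hR1, -, -⟩ := hD
  have key : ∀ x y, ‖x‖ = r → ¬ inb Q R x → rel r c Q R x y → dist x y < 1 - ε ∧ c x = c y := by
    intro x y hx hi h
    rcases h with rfl | ⟨-, hy, h⟩
    · exact ⟨by rw [dist_self]; linarith, rfl⟩
    · rcases h with ⟨q, hq, h1, h2⟩ | ⟨-, -, h2, h1⟩
      · exact absurd ⟨q, hq, h1⟩ hi
      · refine ⟨?_, h2⟩
        by_contra hcon
        push Not at hcon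
        exact hG x y hx hy hcon (by linarith) h2
  refine ⟨fun x hx => NB1_rel r c Q R hR1 x _ hx (hR.2 x), fun x y hx h => (NB1_rel r c Q R hR1 x y hx ((hR.1 x y).1 h)).2, fun x hx hb => ?_,
    fun x y hx _ hi h => key x y hx hi ((hR.1 x y).1 h)⟩
  have hi : ¬ inb Q R x := fun h => hb ⟨x, hx, h, rfl⟩
  exact ⟨(key x _ hx hi (hR.2 x)).2.symm, hi⟩

end

end Pool.Agent.helper78.FS
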