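import Pool.Agent.helper78.FS.Spec

namespace Pool.Agent.helper78.FS

open Finset Real
open Classical

noncomputable section

theorem NB2 : NB2_stmt := by
  intro h1 ε r c Q R φ η hε hD hR hη hηε v w hv hw hA
  obtain ⟨-, -, h3, h4⟩ := h1 ε r c Q R φ hε hD hR
  obtain ⟨hvw, x1, y1, hx1, hy1, rfl, rfl, hd1⟩ := hA
  obtain ⟨cx1, ix1⟩ := h3 x1 hx1 hv
  obtain ⟨cy1, iy1⟩ := h3 y1 hy1 hw
  refine ⟨fun hc => ?_, fun w' hw' hA' hc => ?_⟩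
  · apply hvw
    rw [hR.1]
    right
    refine ⟨hx1, hy1, Or.inr ⟨ix1, iy1, ?_, by linarith⟩⟩
    rw [← cx1, ← cy1, hc]
  · obtain ⟨hvw', x2, y2, hx2, hy2, e2, rfl, hd2⟩ := hA'
    obtain ⟨cy2, iy2⟩ := h3 y2 hy2 hw'
    have h5 := (h4 x1 x2 hx1 hx2 ix1 e2.symm).1
    rw [hR.1]
    right
    refine ⟨hy1, hy2, Or.inr ⟨iy1, iy2, ?_, ?_⟩⟩
    · rw [← cy1, ← cy2, hc]
    · have e3 : dist y1 y2 ≤ dist y1 x1 + dist x1 x2 + dist x2 y2 := dist_triangle4 _ _ _ _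
      rw [dist_comm y1 x1] at e3
      linarith

end

end Pool.Agent.helper78.FS
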